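import Mathlib

set_option autoImplicit false

/-!
# A sharp inequality for renewal sequences

If `u` is a renewal sequence with gap law `f` (`f k` is the probability of a gap `k + 1`) and
`κ = 1 - f 0`, then `u (s + r) ≤ exp (u s - 1) + 2 κ` for all `s`, `r`.
-/

open Finset

namespace Run7.h194.PF

/-- `u` is the renewal sequence of the (possibly defective) gap law `f`; `f k` is the probability
of a gap `k + 1`. -/
structure Ren (f u : ℕ → ℝ) : Prop where
  zero : u 0 = 1
  nonneg : ∀ k, 0 ≤ f k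
  sum_le : ∀ n, ∑ k ∈ range n, f k ≤ 1
  req : ∀ n, u (n + 1) = ∑ k ∈ range (n + 1), f k * u (n - k)

/-- overshoot law over the level `a` -/
def nu (f : ℕ → ℝ) : ℕ → ℕ → ℝ
  | 0, o => if o = 0 then 1 else 0
  | a + 1, o => nu f a (o + 1) + nu f a 0 * f o

/-- tails of the gap law -/
def tl (f : ℕ → ℝ) (n : ℕ) : ℝ := 1 - ∑ k ∈ range n, f k

/-- the convolution `∑_{i ≤ n} a i * b (n - i)` -/
def cv (a b : ℕ → ℝ) (n : ℕ) : ℝ := ∑ i ∈ range (n + 1), a i * b (n - i)

open PowerSeries in
lemma cv_coeff (a b : ℕ → ℝ) (n : ℕ) :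
    cv a b n = coeff n (PowerSeries.mk a * PowerSeries.mk b) := by
  rw [coeff_mul, Finset.Nat.sum_antidiagonal_eq_sum_range_succ
    (fun i j => coeff i (PowerSeries.mk a) * coeff j (PowerSeries.mk b))]
  simp [cv]

open PowerSeries in
lemma mk_cv (a b : ℕ → ℝ) : PowerSeries.mk (cv a b) = PowerSeries.mk a * PowerSeries.mk b := by
  ext n
  rw [← cv_coeff]; simp

lemma cv_comm (a b : ℕ → ℝ) (n : ℕ) : cv a b n = cv b a n := by
  rw [cv_coeff, cv_coeff, mul_comm]

lemma cv_assoc (a b c : ℕ → ℝ) (n : ℕ) : cv (cv a b) c n = cv a (cv b c) n := by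
  rw [cv_coeff, cv_coeff, mk_cv, mk_cv, mul_assoc]

section
variable {f u : ℕ → ℝ} (R : Ren f u)
include R

lemma Ren.u_nonneg : ∀ n, 0 ≤ u n := by
  intro n
  induction n using Nat.strong_induction_on with
  | _ n ih =>
    cases n with
    | zero => rw [R.zero]; norm_num
    | succ n =>
      rw [R.req]
      exact sum_nonneg fun k hk => mul_nonneg (R.nonneg k) (ih _ (by omega))

lemma Ren.u_le_one : ∀ n, u n ≤ 1 := by
  intro n
  induction n using Nat.strong_induction_on with
  | _ n ih =>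
    cases n with
    | zero => rw [R.zero]
    | succ n =>
      rw [R.req]
      refine le_trans (sum_le_sum fun k hk => ?_) (R.sum_le (n + 1))
      exact mul_le_of_le_one_right (R.nonneg k) (ih _ (by omega))

lemma Ren.nu_nonneg : ∀ a o, 0 ≤ nu f a o := by
  intro a
  induction a with
  | zero => intro o; simp only [nu]; split_ifs <;> norm_num
  | succ a ih => intro o; exact add_nonneg (ih _) (mul_nonneg (ih _) (R.nonneg _))

lemma Ren.nu_sum : ∀ a n, ∑ o ∈ range n, nu f a o ≤ 1 := by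
  intro a
  induction a with
  | zero =>
    intro n
    cases n with
    | zero => simp
    | succ n => rw [sum_range_succ']; simp [nu]
  | succ a ih =>
    intro n
    have h1 := ih (n + 1)
    rw [sum_range_succ'] at h1
    simp only [nu]
    rw [sum_add_distrib, ← mul_sum]
    have h2 := mul_le_of_le_one_right (R.nu_nonneg a 0) (R.sum_le n)
    linarith

lemma Ren.nu_u : ∀ a i, u (a + i) = cv (nu f a) u i := by
  intro a
  induction a with
  | zero =>
    intro i
    rw [cv, sum_range_succ']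
    simp [nu]
  | succ a ih =>
    intro i
    rw [show a + 1 + i = a + (i + 1) by ring, ih (i + 1), cv, cv, sum_range_succ']
    simp only [nu, Nat.sub_zero, Nat.add_sub_add_right]
    rw [R.req i, mul_sum, ← sum_add_distrib]
    refine sum_congr rfl fun k hk => ?_
    ring

lemma Ren.nu_zero (s : ℕ) : nu f s 0 = u s := by
  have := R.nu_u s 0
  simp only [cv, Nat.add_zero, zero_add, sum_range_one, R.zero, Nat.sub_zero, mul_one] at this
  exact this.symm

lemma Ren.nu_succ (s : ℕ) : ∀ o, nu f s (o + 1) = ∑ v ∈ range s, u v * f (s - v + o) := by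
  induction s with
  | zero => intro o; simp [nu]
  | succ s ih =>
    intro o
    simp only [nu]
    rw [ih (o + 1), R.nu_zero, sum_range_succ, show s + 1 - s + o = o + 1 by omega]
    congr 1
    refine sum_congr rfl fun v hv => ?_
    rw [mem_range] at hv
    congr 2
    omega

/-- renewal recursion for convolutions with `u` -/
lemma Ren.cv_rec (c : ℕ → ℝ) (n : ℕ) :
    cv c u n = c n + ∑ k ∈ range n, f k * cv c u (n - 1 - k) := by
  have h : PowerSeries.mk u = 1 + PowerSeries.X * (PowerSeries.mk f * PowerSeries.mk u) := by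
    ext n
    cases n with
    | zero => simp [R.zero]
    | succ n =>
      rw [map_add, PowerSeries.coeff_succ_X_mul, ← cv_coeff, PowerSeries.coeff_mk, R.req n]
      simp [cv, PowerSeries.coeff_one]
  have h2 : PowerSeries.mk (cv c u) = PowerSeries.mk c +
      PowerSeries.X * (PowerSeries.mk f * PowerSeries.mk (cv c u)) := by
    rw [mk_cv]
    linear_combination (PowerSeries.mk c) * h
  have h3 := congrArg (PowerSeries.coeff n) h2
  cases n with
  | zero => simpa using h3
  | succ n =>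
    rw [map_add, PowerSeries.coeff_succ_X_mul, ← cv_coeff f (cv c u), PowerSeries.coeff_mk,
      PowerSeries.coeff_mk] at h3
    rw [h3, cv]
    simp

lemma Ren.cv_unique (c g : ℕ → ℝ) (hg : ∀ n, g n = c n + ∑ k ∈ range n, f k * g (n - 1 - k)) :
    ∀ n, g n = cv c u n := by
  intro n
  induction n using Nat.strong_induction_on with
  | _ n ih =>
    rw [hg n, R.cv_rec c n]
    congr 1
    refine sum_congr rfl fun k hk => ?_
    rw [mem_range] at hk
    rw [ih _ (by omega)]

lemma Ren.tl_nonneg (n : ℕ) : 0 ≤ tl f n := by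
  have := R.sum_le n
  unfold tl; linarith

lemma Ren.tl_succ_le (n : ℕ) : tl f (n + 1) ≤ tl f n := by
  unfold tl
  rw [sum_range_succ]
  linarith [R.nonneg n]

end

/-- `q (n+1) = (u * u) n`, `q 0 = 0` -/
def qq (u : ℕ → ℝ) : ℕ → ℝ
  | 0 => 0
  | n + 1 => cv u u n

/-- running maximum of `q` -/
noncomputable def qh (u : ℕ → ℝ) : ℕ → ℝ
  | 0 => 0
  | n + 1 => max (qh u n) (cv u u n)

lemma qh_succ_ge (u : ℕ → ℝ) (n : ℕ) : qh u n ≤ qh u (n + 1) := le_max_left _ _

lemma qh_mono (u : ℕ → ℝ) : Monotone (qh u) := monotone_nat_of_le_succ (qh_succ_ge u)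

lemma cv_le_qh (u : ℕ → ℝ) (n : ℕ) : cv u u n ≤ qh u (n + 1) := le_max_right _ _

lemma qh_nonneg (u : ℕ → ℝ) (n : ℕ) : 0 ≤ qh u n := by
  have := qh_mono u (Nat.zero_le n)
  exact this

/-- the source of the running maximum -/
noncomputable def ppi (f u : ℕ → ℝ) (n : ℕ) : ℝ :=
  qh u (n + 1) - ∑ k ∈ range n, f k * qh u (n - k)

section
variable {f u : ℕ → ℝ} (R : Ren f u)
include R

lemma Ren.ppi_cv (n : ℕ) : qh u (n + 1) = cv (ppi f u) u n := by
  refine R.cv_unique (ppi f u) (fun n => qh u (n + 1)) (fun n => ?_) n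
  simp only [ppi]
  have : ∑ k ∈ range n, f k * qh u (n - k) = ∑ k ∈ range n, f k * qh u (n - 1 - k + 1) := by
    refine sum_congr rfl fun k hk => ?_
    rw [mem_range] at hk
    congr 2
    omega
  rw [this]
  ring

lemma Ren.ppi_nonneg (n : ℕ) : 0 ≤ ppi f u n := by
  unfold ppi
  have h1 : ∑ k ∈ range n, f k * qh u (n - k) ≤ ∑ k ∈ range n, f k * qh u (n + 1) :=
    sum_le_sum fun k hk => mul_le_mul_of_nonneg_left (qh_mono u (by omega)) (R.nonneg k)
  rw [← sum_mul] at h1
  have h2 := mul_le_of_le_one_left (qh_nonneg u (n + 1)) (R.sum_le n)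
  linarith

/-- `W d n = (π * u(d + ·)) n`, the majorant -/
lemma Ren.W_eq (d n : ℕ) : cv (ppi f u) (fun j => u (d + j)) n
    = ∑ o ∈ range (n + 1), nu f d o * qh u (n - o + 1) := by
  have h1 : (fun j => u (d + j)) = cv (nu f d) u := by
    funext j; exact R.nu_u d j
  have h2 : (fun j => qh u (j + 1)) = cv (ppi f u) u := by
    funext j; exact R.ppi_cv j
  rw [h1, ← cv_assoc, show cv (cv (ppi f u) (nu f d)) u n = cv (cv (nu f d) (ppi f u)) u n by
    congr 1; funext j; exact cv_comm _ _ _, cv_assoc, ← h2]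
  rfl

lemma Ren.W_mono (d : ℕ) : Monotone (fun n => cv (ppi f u) (fun j => u (d + j)) n) := by
  refine monotone_nat_of_le_succ fun n => ?_
  rw [R.W_eq, R.W_eq, sum_range_succ _ (n + 1)]
  have h1 : 0 ≤ nu f d (n + 1) * qh u (n + 1 - (n + 1) + 1) :=
    mul_nonneg (R.nu_nonneg _ _) (qh_nonneg _ _)
  have h2 : ∑ o ∈ range (n + 1), nu f d o * qh u (n - o + 1)
      ≤ ∑ o ∈ range (n + 1), nu f d o * qh u (n + 1 - o + 1) :=
    sum_le_sum fun o _ => mul_le_mul_of_nonneg_left (qh_mono u (by omega)) (R.nu_nonneg _ _)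
  linarith

lemma Ren.cv_le_W (d n : ℕ) : cv u (fun j => u (d + j)) n
    ≤ cv (ppi f u) (fun j => u (d + j)) n := by
  have h1 : (fun j => u (d + j)) = cv (nu f d) u := by
    funext j; exact R.nu_u d j
  rw [R.W_eq, h1, ← cv_assoc, show cv (cv u (nu f d)) u n = cv (cv (nu f d) u) u n by
    congr 1; funext j; exact cv_comm _ _ _, cv_assoc]
  exact sum_le_sum fun o _ => mul_le_mul_of_nonneg_left (cv_le_qh _ _) (R.nu_nonneg _ _)

lemma Ren.W_nonneg (d n : ℕ) : 0 ≤ cv (ppi f u) (fun j => u (d + j)) n :=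
  sum_nonneg fun _ _ => mul_nonneg (R.ppi_nonneg _) (R.u_nonneg _)

/-- two shifts -/
lemma Ren.cv_shift_le_W (a d n : ℕ) : cv (fun j => u (a + j)) (fun j => u (d + j)) n
    ≤ cv (ppi f u) (fun j => u (d + j)) n := by
  have h1 : (fun j => u (a + j)) = cv (nu f a) u := by
    funext j; exact R.nu_u a j
  rw [h1, cv_assoc]
  have h2 : cv (nu f a) (cv u (fun j => u (d + j))) n
      ≤ ∑ o ∈ range (n + 1), nu f a o * cv (ppi f u) (fun j => u (d + j)) n := by
    refine sum_le_sum fun o _ => mul_le_mul_of_nonneg_left ?_ (R.nu_nonneg _ _)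
    exact (R.cv_le_W d (n - o)).trans (R.W_mono d (Nat.sub_le n o))
  rw [← sum_mul] at h2
  exact h2.trans (mul_le_of_le_one_left (R.W_nonneg d n) (R.nu_sum a (n + 1)))

end

end Run7.h194.PF
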