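import Pool.Agent.Run7.h194.PF.Disc

set_option autoImplicit false

open Finset

namespace Run7.h194.PF

lemma tangent {x y : ℝ} (hy : y ≤ 1) (ys : ℝ) (hx : x ≤ Real.exp (-ys))
    (hc : x = Real.exp (-ys) ∨ ys = 1) :
    Real.exp (-ys) - (1 - ys) * x ≤ Real.exp (-y) - (1 - y) * x := by
  have h1 : Real.exp (-ys) * (1 + ys - y) ≤ Real.exp (-y) := by
    have h2 := Real.add_one_le_exp (ys - y)
    have h3 : Real.exp (-y) = Real.exp (-ys) * Real.exp (ys - y) := by
      rw [← Real.exp_add]; ring_nf
    rw [h3]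
    exact mul_le_mul_of_nonneg_left (by linarith) (Real.exp_pos _).le
  rcases hc with rfl | rfl
  · nlinarith
  · have h4 : (1 - y) * x ≤ (1 - y) * Real.exp (-1) :=
      mul_le_mul_of_nonneg_left hx (by linarith)
    nlinarith

section
variable {f u : ℕ → ℝ} (R : Ren f u)
include R

lemma Ren.kappa_nonneg : 0 ≤ 1 - f 0 := by
  have := R.sum_le 1
  simp at this
  linarith

lemma Ren.G_bound (c : ℕ → ℝ) (hc0 : c 0 ≤ 1)
    (hc : ∀ t, c t ≤ max (u t) (Real.exp (-1)) + (1 - f 0)) :
    ∀ n y, 0 ≤ y → y ≤ 1 → cv (fun b => tl f (b + 1) * c b) u n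
      ≤ Real.exp (-y) - (1 - y) * u n + (1 - f 0) := by
  intro n
  induction n using Nat.strong_induction_on with
  | _ n ih =>
    intro y hy0 hy1
    cases n with
    | zero =>
      simp only [cv, zero_add, sum_range_one, R.zero, Nat.sub_zero, mul_one]
      have h1 : tl f 1 = 1 - f 0 := by simp [tl]
      have h2 := Real.add_one_le_exp (-y)
      have h3 : tl f 1 * c 0 ≤ 1 - f 0 := by
        rw [h1]; exact mul_le_of_le_one_right R.kappa_nonneg hc0
      linarith
    | succ n =>
      rw [R.cv_rec]
      obtain ⟨ys, hys0, hys1, hexp, hcase⟩ : ∃ ys : ℝ, 0 ≤ ys ∧ ys ≤ 1 ∧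
          Real.exp (-ys) = max (u (n + 1)) (Real.exp (-1)) ∧
          (u (n + 1) = Real.exp (-ys) ∨ ys = 1) := by
        by_cases h : Real.exp (-1) ≤ u (n + 1)
        · have hpos : 0 < u (n + 1) := lt_of_lt_of_le (Real.exp_pos _) h
          refine ⟨-Real.log (u (n + 1)), ?_, ?_, ?_, ?_⟩
          · have := Real.log_nonpos hpos.le (R.u_le_one _)
            linarith
          · have := Real.log_le_log (Real.exp_pos _) h
            rw [Real.log_exp] at this
            linarith
          · rw [neg_neg, Real.exp_log hpos, max_eq_left h]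
          · left; rw [neg_neg, Real.exp_log hpos]
        · push Not at h
          exact ⟨1, by norm_num, le_rfl, by rw [max_eq_right h.le], Or.inr rfl⟩
      have hE : 0 ≤ Real.exp (-ys) + (1 - f 0) := add_nonneg (Real.exp_pos _).le R.kappa_nonneg
      have h1 : tl f (n + 1 + 1) * c (n + 1) ≤ tl f (n + 1) * (Real.exp (-ys) + (1 - f 0)) := by
        refine (mul_le_mul_of_nonneg_left (hc (n + 1)) (R.tl_nonneg _)).trans ?_
        rw [← hexp]
        exact mul_le_mul_of_nonneg_right (R.tl_succ_le _) hE
      have h2 : ∑ k ∈ range (n + 1), f k * cv (fun b => tl f (b + 1) * c b) u (n + 1 - 1 - k)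
          ≤ ∑ k ∈ range (n + 1), f k * (Real.exp (-ys) - (1 - ys) * u (n - k) + (1 - f 0)) := by
        refine sum_le_sum fun k hk => mul_le_mul_of_nonneg_left ?_ (R.nonneg k)
        rw [mem_range] at hk
        rw [show n + 1 - 1 - k = n - k by omega]
        exact ih (n - k) (by omega) ys hys0 hys1
      have h3 : ∑ k ∈ range (n + 1), f k * (Real.exp (-ys) - (1 - ys) * u (n - k) + (1 - f 0))
          = (1 - tl f (n + 1)) * (Real.exp (-ys) + (1 - f 0)) - (1 - ys) * u (n + 1) := by
        rw [R.req n, mul_sum, show 1 - tl f (n + 1) = ∑ k ∈ range (n + 1), f k by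
          unfold tl; ring, sum_mul, ← sum_sub_distrib]
        refine sum_congr rfl fun k _ => ?_
        ring
      have h4 := tangent hy1 ys (x := u (n + 1)) (by rw [hexp]; exact le_max_left _ _) hcase
      linarith

lemma Ren.cv_nonneg (n : ℕ) : 0 ≤ cv u u n :=
  sum_nonneg fun _ _ => mul_nonneg (R.u_nonneg _) (R.u_nonneg _)

/-- the shifted splitting of `u * u` -/
lemma Ren.split_le (t k : ℕ) (hk : k ≤ t) :
    cv u u t - ∑ j ∈ range k, u j * u (t - j) ≤ qh u (t + 1 - k) := by
  have h1 : cv u u t = ∑ j ∈ range k, u j * u (t - j) + cv (fun j => u (k + j)) u (t - k) := by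
    unfold cv
    rw [show t + 1 = k + (t - k + 1) by omega, sum_range_add]
    congr 1
    refine sum_congr rfl fun i _ => ?_
    congr 2
    omega
  have h2 : (fun j => u (k + j)) = cv (nu f k) u := by
    funext j; exact R.nu_u k j
  rw [h1, h2, cv_assoc, add_sub_cancel_left]
  have h3 : cv (nu f k) (cv u u) (t - k) ≤ ∑ o ∈ range (t - k + 1), nu f k o * qh u (t + 1 - k) := by
    refine sum_le_sum fun o _ => mul_le_mul_of_nonneg_left ?_ (R.nu_nonneg _ _)
    exact (cv_le_qh u _).trans (qh_mono u (by omega))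
  rw [← sum_mul] at h3
  exact h3.trans (mul_le_of_le_one_left (qh_nonneg u _) (R.nu_sum k _))

omit R in
lemma qh_attained (u : ℕ → ℝ) : ∀ t, qh u t = 0 ∨ ∃ t0 < t, qh u t = cv u u t0 := by
  intro t
  induction t with
  | zero => left; rfl
  | succ t ih =>
    rcases le_total (qh u t) (cv u u t) with h | h
    · right; exact ⟨t, Nat.lt_succ_self t, max_eq_right h⟩
    · have h1 : qh u (t + 1) = qh u t := max_eq_left h
      rcases ih with h2 | ⟨t0, ht0, h2⟩
      · left; rw [h1, h2]
      · right; exact ⟨t0, by omega, by rw [h1, h2]⟩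

omit R in
lemma sum_tail_swap (f a : ℕ → ℝ) (T : ℕ) :
    ∑ k ∈ range T, f k * ∑ j ∈ range k, a j
      = ∑ j ∈ range T, a j * (tl f (j + 1) - tl f T) := by
  have h1 : ∀ k ∈ range T, f k * ∑ j ∈ range k, a j
      = ∑ j ∈ range T, if j < k then f k * a j else 0 := by
    intro k hk
    rw [mem_range] at hk
    rw [mul_sum, ← sum_filter]
    congr 1
    ext j
    simp only [mem_range, mem_filter]
    constructor
    · intro h; exact ⟨by omega, h⟩
    · intro h; exact h.2
  rw [sum_congr rfl h1, sum_comm]
  refine sum_congr rfl fun j hj => ?_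
  rw [mem_range] at hj
  rw [← sum_filter, ← sum_mul, mul_comm]
  congr 1
  unfold tl
  have h2 : ∑ k ∈ range T, f k = ∑ k ∈ range (j + 1), f k + ∑ k ∈ range T with j < k, f k := by
    rw [← sum_filter_add_sum_filter_not (range T) (fun k => k < j + 1)]
    congr 1
    · congr 1
      ext k
      simp only [mem_range, mem_filter]
      omega
    · congr 1
      ext k
      simp only [mem_range, mem_filter]
      omega
  rw [h2]
  ring

lemma Ren.ppi_zero : ppi f u 0 ≤ 1 := by
  simp [ppi, qh, cv, R.zero]

lemma Ren.ppi_bound (t : ℕ) : ppi f u t ≤ max (u t) (Real.exp (-1)) + (1 - f 0) := by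
  rcases le_or_gt (qh u t) (cv u u t) with h | h
  · -- the running maximum is attained at the present time
    have h1 : qh u (t + 1) = cv u u t := max_eq_right h
    have h2 : ppi f u t ≤ u t := by
      unfold ppi
      rw [h1, R.cv_rec u t]
      have h3 : ∑ k ∈ range t, f k * cv u u (t - 1 - k) ≤ ∑ k ∈ range t, f k * qh u (t - k) := by
        refine sum_le_sum fun k hk => mul_le_mul_of_nonneg_left ?_ (R.nonneg k)
        rw [mem_range] at hk
        have := cv_le_qh u (t - 1 - k)
        rwa [show t - 1 - k + 1 = t - k by omega] at this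
      linarith
    have h3 := le_max_left (u t) (Real.exp (-1))
    linarith [R.kappa_nonneg]
  · have h1 : qh u (t + 1) = qh u t := max_eq_left h.le
    rcases qh_attained u t with h0 | ⟨t0, ht0, hq⟩
    · rw [h0] at h
      linarith [R.cv_nonneg t]
    have h2 : ppi f u t ≤ cv (fun b => tl f (b + 1) * u b) u t0 := by
      unfold ppi
      rw [h1, hq]
      have h3 : ∑ k ∈ range (t0 + 1), f k * (cv u u t0 - ∑ j ∈ range k, u j * u (t0 - j))
          ≤ ∑ k ∈ range t, f k * qh u (t - k) := by
        refine le_trans ?_ (sum_le_sum_of_subset_of_nonneg (range_mono (show t0 + 1 ≤ t by omega))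
          fun k _ _ => mul_nonneg (R.nonneg k) (qh_nonneg u _))
        refine sum_le_sum fun k hk => mul_le_mul_of_nonneg_left ?_ (R.nonneg k)
        rw [mem_range] at hk
        exact (R.split_le t0 k (by omega)).trans (qh_mono u (by omega))
      have h4 : ∑ k ∈ range (t0 + 1), f k * (cv u u t0 - ∑ j ∈ range k, u j * u (t0 - j))
          = (1 - tl f (t0 + 1)) * cv u u t0
            - ∑ j ∈ range (t0 + 1), (u j * u (t0 - j)) * (tl f (j + 1) - tl f (t0 + 1)) := by
        rw [← sum_tail_swap f (fun j => u j * u (t0 - j)) (t0 + 1),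
          show 1 - tl f (t0 + 1) = ∑ k ∈ range (t0 + 1), f k by unfold tl; ring, sum_mul,
          ← sum_sub_distrib]
        refine sum_congr rfl fun k _ => ?_
        ring
      have h5 : ∑ j ∈ range (t0 + 1), (u j * u (t0 - j)) * (tl f (j + 1) - tl f (t0 + 1))
          = cv (fun b => tl f (b + 1) * u b) u t0 - tl f (t0 + 1) * cv u u t0 := by
        unfold cv
        rw [mul_sum, ← sum_sub_distrib]
        refine sum_congr rfl fun k _ => ?_
        ring
      linarith
    have h3 := R.G_bound u (by rw [R.zero]) (fun t => by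
      have := le_max_left (u t) (Real.exp (-1))
      linarith [R.kappa_nonneg]) t0 1 zero_le_one le_rfl
    have h4 := le_max_right (u t) (Real.exp (-1))
    linarith

end

end Run7.h194.PF
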