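import Pool.Agent.Run7.h194.PF.Disc2

set_option autoImplicit false

open Finset

namespace Run7.h194.PF

/-- contributions of the gaps `k + 1` that jump over the time `s` -/
noncomputable def KK (u : ℕ → ℝ) (s r k : ℕ) : ℝ :=
  ∑ o ∈ range r, ∑ v ∈ range s, if s - v + o = k then u v * u (r - 1 - o) else 0

section
variable {f u : ℕ → ℝ} (R : Ren f u)
include R

lemma Ren.V_eq (s r : ℕ) : u (s + r) = u s * u r + ∑ k ∈ range (s + r), f k * KK u s r k := by
  rw [R.nu_u s r, cv, sum_range_succ', R.nu_zero, Nat.sub_zero, add_comm]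
  congr 1
  have h1 : ∀ o ∈ range r, nu f s (o + 1) * u (r - (o + 1))
      = ∑ v ∈ range s, f (s - v + o) * (u v * u (r - 1 - o)) := by
    intro o _
    rw [R.nu_succ, sum_mul, show r - (o + 1) = r - 1 - o by omega]
    refine sum_congr rfl fun v _ => ?_
    ring
  rw [sum_congr rfl h1]
  unfold KK
  simp_rw [mul_sum]
  symm
  rw [sum_comm]
  refine sum_congr rfl fun o ho => ?_
  rw [sum_comm]
  refine sum_congr rfl fun v hv => ?_
  rw [mem_range] at ho hv
  simp only [mul_ite, mul_zero]
  rw [sum_ite_eq]
  rw [if_pos (by rw [mem_range]; omega)]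

omit R in
lemma KK_zero (u : ℕ → ℝ) (s r : ℕ) : KK u s r 0 = 0 := by
  unfold KK
  refine sum_eq_zero fun o _ => sum_eq_zero fun v hv => ?_
  rw [mem_range] at hv
  rw [if_neg (by omega)]

lemma Ren.KK_le (s r k : ℕ) (hk : 1 ≤ k) (hr : 1 ≤ r) :
    KK u s r k ≤ cv (ppi f u) (fun j => u (r - min k r + j)) (min k r - 1) := by
  have hz1 : 1 ≤ min k r := le_min hk hr
  have hzk : min k r ≤ k := min_le_left _ _
  have hzr : min k r ≤ r := min_le_right _ _
  set z := min k r with hz
  -- the inner sums
  have hin : ∀ o ∈ range r, (∑ v ∈ range s, if s - v + o = k then u v * u (r - 1 - o) else 0)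
      = if o < z ∧ k ≤ s + o then u (s + o - k) * u (r - 1 - o) else 0 := by
    intro o ho
    rw [mem_range] at ho
    by_cases h : o < z ∧ k ≤ s + o
    · rw [if_pos h]
      rw [sum_eq_single (s + o - k)]
      · rw [if_pos (by omega)]
      · intro v hv hne
        rw [mem_range] at hv
        rw [if_neg (by omega)]
      · intro hn
        rw [mem_range] at hn
        omega
    · rw [if_neg h]
      refine sum_eq_zero fun v hv => ?_
      rw [mem_range] at hv
      rw [if_neg]
      intro hcon
      apply h
      constructor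
      · rw [hz, lt_min_iff]; omega
      · omega
  unfold KK
  rw [sum_congr rfl hin]
  rcases le_or_gt k s with hks | hks
  · -- `k ≤ s`
    have h1 : (∑ o ∈ range r, if o < z ∧ k ≤ s + o then u (s + o - k) * u (r - 1 - o) else 0)
        = cv (fun j => u (s - k + j)) (fun j => u (r - z + j)) (z - 1) := by
      unfold cv
      rw [show z - 1 + 1 = z by omega, ← sum_filter]
      have h2 : (range r).filter (fun o => o < z ∧ k ≤ s + o) = range z := by
        ext o
        simp only [mem_filter, mem_range]
        constructor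
        · intro h; exact h.2.1
        · intro h; refine ⟨by omega, h, by omega⟩
      rw [h2]
      refine sum_congr rfl fun o ho => ?_
      rw [mem_range] at ho
      congr 2 <;> omega
    rw [h1]
    exact R.cv_shift_le_W _ _ _
  · -- `s < k`
    rcases le_or_gt z (k - s) with hza | hza
    · have h1 : (∑ o ∈ range r, if o < z ∧ k ≤ s + o then u (s + o - k) * u (r - 1 - o) else 0)
          = 0 := by
        refine sum_eq_zero fun o _ => ?_
        rw [if_neg]
        omega
      rw [h1]
      exact R.W_nonneg _ _
    · have h1 : (∑ o ∈ range r, if o < z ∧ k ≤ s + o then u (s + o - k) * u (r - 1 - o) else 0)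
          = cv u (fun j => u (r - z + j)) (z - (k - s) - 1) := by
        unfold cv
        rw [show z - (k - s) - 1 + 1 = z - (k - s) by omega, ← sum_filter]
        have h2 : (range r).filter (fun o => o < z ∧ k ≤ s + o) = Ico (k - s) z := by
          ext o
          simp only [mem_filter, mem_range, mem_Ico]
          constructor
          · intro h; omega
          · intro h; omega
        rw [h2, sum_Ico_eq_sum_range]
        refine sum_congr rfl fun o ho => ?_
        rw [mem_range] at ho
        congr 2 <;> omega
      rw [h1]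
      exact (R.cv_le_W _ _).trans (R.W_mono _ (by omega))

lemma Ren.V_le (s r : ℕ) (hr : 1 ≤ r) :
    ∑ k ∈ range (s + r), f k * KK u s r k ≤ cv (fun b => tl f (b + 1) * ppi f u b) u (r - 1) := by
  have h1 : ∑ k ∈ range (s + r), f k * KK u s r k
      ≤ ∑ k ∈ range (s + r), f k * ∑ b ∈ range k,
        (if b < r then ppi f u b * u (r - 1 - b) else 0) := by
    refine sum_le_sum fun k _ => mul_le_mul_of_nonneg_left ?_ (R.nonneg k)
    rcases Nat.eq_zero_or_pos k with rfl | hk
    · rw [KK_zero]; simp
    · refine (R.KK_le s r k hk hr).trans (le_of_eq ?_)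
      unfold cv
      have hz1 : 1 ≤ min k r := le_min hk hr
      rw [show min k r - 1 + 1 = min k r by omega, ← sum_filter]
      have h2 : (range k).filter (fun b => b < r) = range (min k r) := by
        ext b
        simp only [mem_filter, mem_range, lt_min_iff]
      rw [h2]
      refine sum_congr rfl fun b hb => ?_
      rw [mem_range] at hb
      have : min k r ≤ r := min_le_right _ _
      show ppi f u b * u (r - min k r + (min k r - 1 - b)) = ppi f u b * u (r - 1 - b)
      rw [show r - min k r + (min k r - 1 - b) = r - 1 - b by omega]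
  refine h1.trans ?_
  rw [sum_tail_swap]
  have h3 : ∑ j ∈ range (s + r), (if j < r then ppi f u j * u (r - 1 - j) else 0)
        * (tl f (j + 1) - tl f (s + r))
      ≤ ∑ j ∈ range (s + r), (if j < r then (tl f (j + 1) * ppi f u j) * u (r - 1 - j) else 0) := by
    refine sum_le_sum fun j _ => ?_
    split_ifs
    · have h4 : 0 ≤ ppi f u j * u (r - 1 - j) := mul_nonneg (R.ppi_nonneg _) (R.u_nonneg _)
      nlinarith [R.tl_nonneg (s + r)]
    · simp
  refine h3.trans (le_of_eq ?_)
  rw [← sum_filter]
  unfold cv
  rw [show r - 1 + 1 = r by omega]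
  congr 1
  ext b
  simp only [mem_filter, mem_range]
  omega

lemma Ren.step_le (n : ℕ) : u (n + 1) ≤ u n + (1 - f 0) := by
  rw [R.req, sum_range_succ', Nat.sub_zero]
  have h1 : ∑ k ∈ range n, f (k + 1) * u (n - (k + 1)) ≤ ∑ k ∈ range n, f (k + 1) :=
    sum_le_sum fun k _ => mul_le_of_le_one_right (R.nonneg _) (R.u_le_one _)
  have h2 := R.sum_le (n + 1)
  rw [sum_range_succ'] at h2
  have h3 : f 0 * u n ≤ u n := by
    have h4 := R.kappa_nonneg
    nlinarith [R.u_nonneg n]
  linarith

/-- The sharp oscillation inequality for renewal sequences. -/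
theorem Ren.main (s r : ℕ) : u (s + r) ≤ Real.exp (u s - 1) + 2 * (1 - f 0) := by
  have hk := R.kappa_nonneg
  cases r with
  | zero =>
    have := Real.add_one_le_exp (u s - 1)
    rw [Nat.add_zero]
    linarith
  | succ r =>
    rw [R.V_eq s (r + 1)]
    have h1 := R.V_le s (r + 1) (by omega)
    rw [Nat.add_sub_cancel] at h1
    have h2 := R.G_bound (ppi f u) R.ppi_zero R.ppi_bound r (1 - u s)
      (by linarith [R.u_le_one s]) (by linarith [R.u_nonneg s])
    have h3 := R.step_le r
    have h4 : u s * u (r + 1) ≤ u s * u r + (1 - f 0) := by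
      have h5 := mul_le_mul_of_nonneg_left h3 (R.u_nonneg s)
      have h6 := mul_le_of_le_one_left hk (R.u_le_one s)
      linarith
    rw [show -(1 - u s) = u s - 1 by ring, show 1 - (1 - u s) = u s by ring] at h2
    linarith

end

end Run7.h194.PF
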