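import Pool.Agent.Run7.h194.PF.Skel

set_option autoImplicit false

open Finset Filter Topology MeasureTheory
open scoped NNReal

namespace Run7.h194.PF

open Pool.Agent.Results.MP_0f714a_pr.NotInI0

lemma tendsto_Ud' (p : ℝ≥0 → ℝ) (N : ℕ → ℕ) (u : ℕ → ℕ → ℝ) (U : Filter ℕ)
    (hlim : ∀ (b : ℕ → ℕ) (t : ℝ≥0), Tendsto (fun j => ((b j : ℕ) : ℝ≥0) / (N j : ℝ≥0)) U (𝓝 t) →
      Tendsto (fun j => u j (b j)) U (𝓝 (p t))) :
    ∀ (n : ℕ) (B : List (ℕ → ℕ)) (l : List ℝ≥0), B.length = n →
      List.Forall₂ (fun b t => Tendsto (fun j => ((b j : ℕ) : ℝ≥0) / (N j : ℝ≥0)) U (𝓝 t)) B l →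
      Tendsto (fun j => Ud (u j) (B.map (fun b => b j))) U (𝓝 (V p l)) := by
  intro n
  induction n with
  | zero =>
    intro B l hB h
    have : B = [] := List.length_eq_zero_iff.mp hB
    subst this
    cases h
    simp only [List.map_nil, Ud_nil, V_nil]
    exact tendsto_const_nhds
  | succ n ih =>
    intro B l hB h
    cases h with
    | nil => simp at hB
    | @cons b t B' l' hbt h' =>
      have hlen : B'.length = n := by simpa using hB
      simp only [List.map_cons, Ud_cons, V_cons, List.map_map]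
      apply Tendsto.mul
      · exact hlim b t hbt
      · have h2 := ih (B'.map (fun c j => c j - b j)) (l'.map (· - t)) (by simpa using hlen) (by
          rw [List.forall₂_map_left_iff, List.forall₂_map_right_iff]
          refine h'.imp ?_
          intro c s hc
          have h3 : (fun j => ((c j - b j : ℕ) : ℝ≥0) / (N j : ℝ≥0)) =
              fun j => ((c j : ℕ) : ℝ≥0) / (N j : ℝ≥0) - ((b j : ℕ) : ℝ≥0) / (N j : ℝ≥0) := by
            funext j
            rw [Nat.cast_tsub, tsub_div]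
          rw [h3]
          exact hc.sub hbt)
        simp only [List.map_map] at h2
        exact h2

/-- existence of the regenerative phenomenon from converging renewal sequences -/
theorem exists_process' (p : ℝ≥0 → ℝ) (N : ℕ → ℕ) (hN : Tendsto N atTop atTop)
    (f u : ℕ → ℕ → ℝ) (hR : ∀ j, Ren (f j) (u j))
    (hlim : ∀ (b : ℕ → ℕ) (t : ℝ≥0),
      Tendsto (fun j => ((b j : ℕ) : ℝ≥0) / (N j : ℝ≥0)) (hyperfilter ℕ : Filter ℕ) (𝓝 t) →
      Tendsto (fun j => u j (b j)) (hyperfilter ℕ : Filter ℕ) (𝓝 (p t))) :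
    ∃ P : Measure Path, IsProbabilityMeasure P ∧
      ∀ l : List ℝ≥0, l.Pairwise (· ≤ ·) → P.real {w : Path | ∀ t ∈ l, w t = true} = V p l := by
  have hf : ∀ j k, 0 ≤ f j k := fun j k => (hR j).nonneg k
  have hf1 : ∀ j n, ∑ k ∈ range n, f j k ≤ 1 := fun j n => (hR j).sum_le n
  set P := RealRMK.rieszMeasure (L N f hf hf1) with hP
  have hfin : IsFiniteMeasure P := inferInstance
  have hLchi : ∀ l : List ℝ≥0, l.Pairwise (· ≤ ·) → L N f hf hf1 (chiC l) = V p l := by
    intro l hl
    apply L_spec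
    have h1 := tendsto_Ud' p N u (hyperfilter ℕ : Filter ℕ) hlim l.length
      (l.map (fun t j => ⌊t * (N j : ℝ≥0)⌋₊)) l (by simp) (by
        rw [List.forall₂_map_left_iff]
        rw [List.forall₂_same]
        intro t _
        exact (tendsto_floor N hN t).mono_left
          (by rw [← Nat.cofinite_eq_atTop]; exact hyperfilter_le_cofinite))
    refine h1.congr' ?_
    obtain ⟨T, hT⟩ : ∃ T : ℕ, ∀ t ∈ l, t ≤ T := by
      clear hl h1
      induction l with
      | nil => exact ⟨0, by simp⟩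
      | cons a l ih =>
        obtain ⟨T, hT⟩ := ih
        obtain ⟨S, hS⟩ := exists_nat_ge a
        refine ⟨max S T, ?_⟩
        intro t ht
        rcases List.mem_cons.mp ht with rfl | ht
        · exact hS.trans (by exact_mod_cast le_max_left _ _)
        · exact (hT t ht).trans (by exact_mod_cast le_max_right _ _)
    have hev : ∀ᶠ j in (hyperfilter ℕ : Filter ℕ), T ≤ j := by
      have : ∀ᶠ j in atTop, T ≤ j := eventually_ge_atTop T
      rw [← Nat.cofinite_eq_atTop] at this
      exact hyperfilter_le_cofinite this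
    filter_upwards [hev] with j hj
    unfold Lam
    have h2 : (fun w => (chiC l) (emb (N j) w)) =
        chi (l.map (fun t => ⌊t * (N j : ℝ≥0)⌋₊)) := by
      funext w
      rw [chiC_apply]
      unfold chi emb
      congr 1
      simp
    rw [h2, Phi_chi (u j) (f j) (hR j).zero (hR j).req]
    · rw [List.map_map]
      rfl
    · apply List.Pairwise.map _ _ hl
      intro a b hab
      apply Nat.floor_mono
      gcongr
    · intro b hb
      obtain ⟨t, ht, rfl⟩ := List.mem_map.mp hb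
      apply Nat.floor_le_of_le
      push_cast
      have := hT t ht
      gcongr
      exact this.trans (by exact_mod_cast hj)
  have hPchi : ∀ l : List ℝ≥0, l.Pairwise (· ≤ ·) →
      P.real {w : Path | ∀ t ∈ l, w t = true} = V p l := by
    intro l hl
    rw [← hLchi l hl, ← RealRMK.integral_rieszMeasure (L N f hf hf1) (chiC l)]
    have hcl : MeasurableSet {w : Path | ∀ t ∈ l, w t = true} := by
      have : {w : Path | ∀ t ∈ l, w t = true} = (fun w : Path => chi l w) ⁻¹' {1} := by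
        ext w
        simp only [Set.mem_ofPred_eq, Set.mem_preimage, Set.mem_singleton_iff, chi]
        constructor
        · intro h; rw [if_pos h]
        · intro h
          by_contra hcon
          rw [if_neg hcon] at h
          norm_num at h
      rw [this]
      exact (continuous_chi l).measurable (measurableSet_singleton _)
    have h3 : (fun w : Path => chiC l w) =
        Set.indicator {w : Path | ∀ t ∈ l, w t = true} (fun _ => (1 : ℝ)) := by
      funext w
      rw [chiC_apply]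
      unfold chi
      by_cases h : ∀ t ∈ l, w t = true
      · rw [if_pos h, Set.indicator_of_mem (by exact h)]
      · rw [if_neg h, Set.indicator_of_notMem (by exact h)]
    rw [h3, integral_indicator_const _ hcl]
    simp [hP]
  refine ⟨P, ?_, hPchi⟩
  have h4 := hPchi [] List.Pairwise.nil
  rw [V_nil] at h4
  have h5 : {w : Path | ∀ t ∈ ([] : List ℝ≥0), w t = true} = Set.univ := by
    ext w; simp
  rw [h5, measureReal_def] at h4
  refine ⟨?_⟩
  rw [← ENNReal.toReal_eq_one_iff]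
  exact h4

/-- Lipschitz property of renewal sequences -/
lemma Ren.lip {f u : ℕ → ℝ} (R : Ren f u) (n d : ℕ) : |u (n + d) - u n| ≤ (1 - f 0) * d := by
  induction d with
  | zero => simp
  | succ d ih =>
    have h1 : |u (n + d + 1) - u (n + d)| ≤ 1 - f 0 := by
      have h2 := R.step_le (n + d)
      have h3 : f 0 * u (n + d) ≤ u (n + d + 1) := by
        rw [R.req, sum_range_succ', Nat.sub_zero]
        have : 0 ≤ ∑ k ∈ range (n + d), f (k + 1) * u (n + d - (k + 1)) :=
          sum_nonneg fun k _ => mul_nonneg (R.nonneg _) (R.u_nonneg _)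
        linarith
      have h4 := R.u_le_one (n + d)
      have h5 := R.kappa_nonneg
      have h6 := R.u_nonneg (n + d)
      rw [abs_le]
      constructor
      · nlinarith
      · linarith
    have h2 := abs_sub_le (u (n + d + 1)) (u (n + d)) (u n)
    rw [← add_assoc]
    push_cast
    linarith

lemma Ren.lip' {f u : ℕ → ℝ} (R : Ren f u) (m n : ℕ) :
    |u m - u n| ≤ (1 - f 0) * |(m : ℝ) - n| := by
  rcases le_total m n with h | h
  · obtain ⟨d, rfl⟩ := Nat.exists_eq_add_of_le h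
    have h1 := R.lip m d
    rw [abs_sub_comm, show |(m : ℝ) - ((m + d : ℕ) : ℝ)| = d by
      push_cast; rw [show (m : ℝ) - (m + d) = -d by ring, abs_neg, Nat.abs_cast]]
    exact h1
  · obtain ⟨d, rfl⟩ := Nat.exists_eq_add_of_le h
    have h1 := R.lip n d
    rw [show |((n + d : ℕ) : ℝ) - (n : ℝ)| = d by
      push_cast; rw [show (n : ℝ) + d - n = d by ring, Nat.abs_cast]]
    exact h1

/-- Limits of renewal sequences with `1 - f 0 ≤ lam / N` are standard p-functions. -/
theorem exists_std (lam : ℝ) (N : ℕ → ℕ) (hN : Tendsto N atTop atTop) (hN0 : ∀ j, 0 < N j)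
    (f u : ℕ → ℕ → ℝ) (hR : ∀ j, Ren (f j) (u j)) (hstep : ∀ j, 1 - f j 0 ≤ lam / N j) :
    ∃ p : ℝ≥0 → ℝ, IsStd p ∧ ∀ (b : ℕ → ℕ) (t : ℝ≥0) (c : ℝ),
      Tendsto (fun j => ((b j : ℕ) : ℝ) / (N j : ℝ)) atTop (𝓝 t) →
      Tendsto (fun j => u j (b j)) atTop (𝓝 c) → p t = c := by
  have hle : (hyperfilter ℕ : Filter ℕ) ≤ atTop := by
    rw [← Nat.cofinite_eq_atTop]; exact hyperfilter_le_cofinite
  have hex : ∀ t : ℝ≥0, ∃ c, Tendsto (fun j => u j ⌊t * (N j : ℝ≥0)⌋₊)
      (hyperfilter ℕ : Filter ℕ) (𝓝 c) := by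
    intro t
    obtain ⟨c, -, hc⟩ := isCompact_Icc.ultrafilter_le_nhds'
      ((hyperfilter ℕ).map (fun j => u j ⌊t * (N j : ℝ≥0)⌋₊))
      (Ultrafilter.mem_map.mpr (Filter.univ_mem' (fun j =>
        (⟨(hR j).u_nonneg _, (hR j).u_le_one _⟩ : u j ⌊t * (N j : ℝ≥0)⌋₊ ∈ Set.Icc (0 : ℝ) 1))))
    exact ⟨c, hc⟩
  choose p hp using hex
  have hlam : 0 ≤ lam := by
    have h1 := (hR 0).kappa_nonneg.trans (hstep 0)
    have h2 : (0 : ℝ) < N 0 := by exact_mod_cast hN0 0
    by_contra hcon
    push Not at hcon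
    have := div_neg_of_neg_of_pos hcon h2
    linarith
  have hlim : ∀ (b : ℕ → ℕ) (t : ℝ≥0),
      Tendsto (fun j => ((b j : ℕ) : ℝ≥0) / (N j : ℝ≥0)) (hyperfilter ℕ : Filter ℕ) (𝓝 t) →
      Tendsto (fun j => u j (b j)) (hyperfilter ℕ : Filter ℕ) (𝓝 (p t)) := by
    intro b t hb
    have h1 : Tendsto (fun j => ((b j : ℕ) : ℝ) / (N j : ℝ)) (hyperfilter ℕ : Filter ℕ)
        (𝓝 (t : ℝ)) := by
      have := (NNReal.tendsto_coe.mpr hb)
      simpa using this
    have h2 : Tendsto (fun j => ((⌊t * (N j : ℝ≥0)⌋₊ : ℕ) : ℝ) / (N j : ℝ))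
        (hyperfilter ℕ : Filter ℕ) (𝓝 (t : ℝ)) := by
      have := (NNReal.tendsto_coe.mpr ((tendsto_floor N hN t).mono_left hle))
      simpa using this
    have h3 : Tendsto (fun j => lam * |((b j : ℕ) : ℝ) / (N j : ℝ)
        - ((⌊t * (N j : ℝ≥0)⌋₊ : ℕ) : ℝ) / (N j : ℝ)|) (hyperfilter ℕ : Filter ℕ) (𝓝 0) := by
      have := ((h1.sub h2).abs).const_mul lam
      simpa using this
    have h4 : Tendsto (fun j => u j (b j) - u j ⌊t * (N j : ℝ≥0)⌋₊)
        (hyperfilter ℕ : Filter ℕ) (𝓝 0) := by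
      refine squeeze_zero_norm (fun j => ?_) h3
      rw [Real.norm_eq_abs]
      have hNj : (0 : ℝ) < N j := by exact_mod_cast hN0 j
      refine ((hR j).lip' _ _).trans ?_
      calc (1 - f j 0) * |((b j : ℕ) : ℝ) - ((⌊t * (N j : ℝ≥0)⌋₊ : ℕ) : ℝ)|
          ≤ lam / N j * |((b j : ℕ) : ℝ) - ((⌊t * (N j : ℝ≥0)⌋₊ : ℕ) : ℝ)| :=
            mul_le_mul_of_nonneg_right (hstep j) (abs_nonneg _)
        _ = lam * |((b j : ℕ) : ℝ) / (N j : ℝ) - ((⌊t * (N j : ℝ≥0)⌋₊ : ℕ) : ℝ) / (N j : ℝ)| := by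
            rw [← sub_div, abs_div, abs_of_pos hNj]
            ring
    have h5 := h4.add (hp t)
    simpa using h5
  have hp0 : p 0 = 1 := by
    have h1 := hp 0
    have h2 : (fun j => u j ⌊(0 : ℝ≥0) * (N j : ℝ≥0)⌋₊) = fun _ => (1 : ℝ) := by
      funext j
      rw [zero_mul, Nat.floor_zero, (hR j).zero]
    rw [h2] at h1
    exact tendsto_nhds_unique h1 tendsto_const_nhds
  obtain ⟨P, hP, hPV⟩ := exists_process' p N hN f u hR hlim
  refine ⟨p, ⟨isPFunction_of_process p hp0 P hP hPV, ?_⟩, ?_⟩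
  · -- standardness
    have hb : ∀ t : ℝ≥0, |p t - 1| ≤ lam * t := by
      intro t
      have h1 : Tendsto (fun j => |u j ⌊t * (N j : ℝ≥0)⌋₊ - 1|) (hyperfilter ℕ : Filter ℕ)
          (𝓝 |p t - 1|) := ((hp t).sub_const 1).abs
      refine le_of_tendsto h1 (Eventually.of_forall fun j => ?_)
      have hNj : (0 : ℝ) < N j := by exact_mod_cast hN0 j
      have h2 := (hR j).lip' ⌊t * (N j : ℝ≥0)⌋₊ 0
      rw [(hR j).zero, Nat.cast_zero, sub_zero, Nat.abs_cast] at h2
      refine h2.trans ?_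
      have h3 : ((⌊t * (N j : ℝ≥0)⌋₊ : ℕ) : ℝ) ≤ t * N j := by
        have := Nat.floor_le (a := t * (N j : ℝ≥0)) bot_le
        exact_mod_cast this
      calc (1 - f j 0) * ((⌊t * (N j : ℝ≥0)⌋₊ : ℕ) : ℝ)
          ≤ lam / N j * (t * N j) :=
            mul_le_mul (hstep j) h3 (Nat.cast_nonneg _) (div_nonneg hlam hNj.le)
        _ = lam * t := by field_simp
    rw [tendsto_iff_norm_sub_tendsto_zero]
    have h3 : Tendsto (fun t : ℝ≥0 => lam * (t : ℝ)) (𝓝 0) (𝓝 0) := by
      have : Continuous fun t : ℝ≥0 => lam * (t : ℝ) := by fun_prop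
      have h4 := this.tendsto 0
      simpa using h4
    exact squeeze_zero (fun _ => norm_nonneg _) (fun t => hb t) h3
  · intro b t c hb hc
    have hb' : Tendsto (fun j => ((b j : ℕ) : ℝ≥0) / (N j : ℝ≥0)) (hyperfilter ℕ : Filter ℕ)
        (𝓝 t) := by
      rw [← NNReal.tendsto_coe]
      have := hb.mono_left hle
      simpa using this
    exact tendsto_nhds_unique (hlim b t hb') (hc.mono_left hle)

end Run7.h194.PF
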