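import Pool.Agent.Run7.h194.PF.Ex

set_option autoImplicit false

open Finset Filter Topology MeasureTheory
open scoped NNReal

namespace Run7.h194.PF

open Pool.Agent.Results.MP_0f714a_pr.NotInI0

/-- renewal sequence of a gap law -/
noncomputable def rs (f : ℕ → ℝ) : ℕ → ℝ
  | 0 => 1
  | n + 1 => ∑ k : Fin (n + 1), f k * rs f (n - k)
decreasing_by
  omega

/-- gaps `1` and `L + 1` only -/
noncomputable def fL (κ : ℝ) (L k : ℕ) : ℝ := if k = 0 then 1 - κ else if k = L then κ else 0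

lemma rs_ren (κ : ℝ) (h0 : 0 ≤ κ) (h1 : κ ≤ 1) (L : ℕ) : Ren (fL κ L) (rs (fL κ L)) where
  zero := by rw [rs]
  nonneg k := by
    unfold fL
    split_ifs <;> linarith
  sum_le n := by
    cases n with
    | zero => simp
    | succ n =>
      rw [sum_range_succ']
      have h2 : ∑ k ∈ range n, fL κ L (k + 1) ≤ κ := by
        have h3 : ∀ k ∈ range n, fL κ L (k + 1) = if k + 1 = L then κ else 0 := by
          intro k _
          unfold fL
          rw [if_neg (by omega)]
        rw [sum_congr rfl h3, ← sum_filter, sum_const]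
        have h4 : #{k ∈ range n | k + 1 = L} ≤ 1 := by
          rw [card_le_one]
          intro a ha b hb
          simp only [mem_filter] at ha hb
          omega
        rw [nsmul_eq_mul]
        have h5 : ((#{k ∈ range n | k + 1 = L} : ℕ) : ℝ) ≤ 1 := by exact_mod_cast h4
        nlinarith
      have h6 : fL κ L 0 = 1 - κ := by simp [fL]
      linarith
  req n := by
    rw [rs, Finset.sum_range]

lemma rs_rec (κ : ℝ) (L : ℕ) (hL : 1 ≤ L) (n : ℕ) :
    rs (fL κ L) (n + 1) = (1 - κ) * rs (fL κ L) n + if L ≤ n then κ * rs (fL κ L) (n - L) else 0 := by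
  rw [rs, ← Finset.sum_range (fun k => fL κ L k * rs (fL κ L) (n - k)), sum_range_succ',
    add_comm]
  congr 1
  · have h1 : ∀ k ∈ range n, fL κ L (k + 1) * rs (fL κ L) (n - (k + 1))
        = if k + 1 = L then κ * rs (fL κ L) (n - L) else 0 := by
      intro k _
      unfold fL
      rw [if_neg (by omega)]
      split_ifs with h
      · rw [h]
      · ring
    rw [sum_congr rfl h1]
    by_cases h : L ≤ n
    · rw [if_pos h, sum_eq_single (L - 1)]
      · rw [if_pos (by omega)]
      · intro b _ hb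
        rw [if_neg (by omega)]
      · intro hn
        rw [mem_range] at hn
        omega
    · rw [if_neg h]
      refine sum_eq_zero fun k hk => ?_
      rw [mem_range] at hk
      rw [if_neg (by omega)]

lemma rs_low (κ : ℝ) (L : ℕ) (hL : 1 ≤ L) : ∀ n ≤ L, rs (fL κ L) n = (1 - κ) ^ n := by
  intro n
  induction n with
  | zero => intro _; rw [rs, pow_zero]
  | succ n ih =>
    intro hn
    rw [rs_rec κ L hL, if_neg (by omega), ih (by omega)]
    ring

lemma rs_high (κ : ℝ) (L : ℕ) (hL : 1 ≤ L) : ∀ m ≤ L,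
    rs (fL κ L) (L + 1 + m) = (1 - κ) ^ (L + 1 + m) + (m + 1) * κ * (1 - κ) ^ m := by
  intro m
  induction m with
  | zero =>
    intro _
    rw [Nat.add_zero, rs_rec κ L hL, if_pos le_rfl, rs_low κ L hL L le_rfl, Nat.sub_self,
      rs_low κ L hL 0 (Nat.zero_le _)]
    push_cast
    ring
  | succ m ih =>
    intro hm
    rw [show L + 1 + (m + 1) = (L + 1 + m) + 1 by ring, rs_rec κ L hL, if_pos (by omega),
      ih (by omega), show L + 1 + m - L = m + 1 by omega, rs_low κ L hL (m + 1) hm]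
    push_cast
    ring

lemma lim_pow (κ : ℕ → ℝ) (n : ℕ → ℕ) (c : ℝ)
    (hk : Tendsto κ atTop (𝓝 0)) (hc : Tendsto (fun j => (n j : ℝ) * κ j) atTop (𝓝 c)) :
    Tendsto (fun j => (1 - κ j) ^ n j) atTop (𝓝 (Real.exp (-c))) := by
  have hev : ∀ᶠ j in atTop, κ j < 1 / 2 :=
    hk.eventually (gt_mem_nhds (by norm_num : (0 : ℝ) < 1 / 2))
  have hlow : Tendsto (fun j => Real.exp (-((n j : ℝ) * κ j / (1 - κ j)))) atTop
      (𝓝 (Real.exp (-c))) := by
    refine (Real.continuous_exp.tendsto _).comp ?_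
    have h1 : Tendsto (fun j => (n j : ℝ) * κ j / (1 - κ j)) atTop (𝓝 (c / (1 - 0))) :=
      hc.div (hk.const_sub 1) (by norm_num)
    rw [sub_zero, div_one] at h1
    exact h1.neg
  have hupp : Tendsto (fun j => Real.exp (-((n j : ℝ) * κ j))) atTop (𝓝 (Real.exp (-c))) :=
    (Real.continuous_exp.tendsto _).comp hc.neg
  refine tendsto_of_tendsto_of_tendsto_of_le_of_le' hlow hupp ?_ ?_
  · filter_upwards [hev] with j hj
    have hpos : 0 < 1 - κ j := by linarith
    have h1 := Real.one_sub_inv_le_log_of_pos hpos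
    have h2 : 1 - (1 - κ j)⁻¹ = -(κ j / (1 - κ j)) := by field_simp; ring
    rw [h2] at h1
    have h3 : (1 - κ j) ^ n j = Real.exp (n j * Real.log (1 - κ j)) := by
      rw [mul_comm, Real.exp_mul, Real.exp_log hpos, Real.rpow_natCast]
    rw [h3, Real.exp_le_exp]
    have h4 := mul_le_mul_of_nonneg_left h1 (Nat.cast_nonneg (n j) : (0 : ℝ) ≤ n j)
    rw [mul_div_assoc]
    linarith
  · filter_upwards [hev] with j hj
    have hpos : 0 < 1 - κ j := by linarith
    have h1 := Real.log_le_sub_one_of_pos hpos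
    have h3 : (1 - κ j) ^ n j = Real.exp (n j * Real.log (1 - κ j)) := by
      rw [mul_comm, Real.exp_mul, Real.exp_log hpos, Real.rpow_natCast]
    rw [h3, Real.exp_le_exp]
    have h4 := mul_le_mul_of_nonneg_left h1 (Nat.cast_nonneg (n j) : (0 : ℝ) ≤ n j)
    linarith

/-- The extremal p-functions. -/
theorem exists_ext (x : ℝ) (hx0 : 0 < x) (hx1 : x < 1) :
    ∃ p : ℝ≥0 → ℝ, IsStd p ∧ p 1 = Real.exp (-x) ∧ ∃ t : ℝ≥0, t ≤ 1 ∧ p t = 1 - x := by
  -- parameters
  set lam : ℝ := x - Real.log (1 - x) with hlam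
  have h1x : 0 < 1 - x := by linarith
  have hlog : Real.log (1 - x) ≤ -x := by
    have := Real.log_le_sub_one_of_pos h1x
    linarith
  have hlam2 : 2 * x ≤ lam := by rw [hlam]; linarith
  have hlam0 : 0 < lam := by linarith
  set ℓ : ℝ := 1 - x / lam with hℓ
  have hxl : x / lam ≤ 1 / 2 := by rw [div_le_div_iff₀ hlam0 (by norm_num)]; linarith
  have hxl0 : 0 < x / lam := div_pos hx0 hlam0
  have hℓ1 : 1 / 2 ≤ ℓ := by rw [hℓ]; linarith
  have hℓ2 : ℓ < 1 := by rw [hℓ]; linarith
  obtain ⟨n0, hn0⟩ := exists_nat_ge lam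
  set N : ℕ → ℕ := fun j => j + (n0 + 1) with hN
  have hNt : Tendsto N atTop atTop := tendsto_add_atTop_nat _
  have hN0 : ∀ j, 0 < N j := fun j => by simp only [hN]; omega
  have hNr : ∀ j, (0 : ℝ) < N j := fun j => by exact_mod_cast hN0 j
  have hNtR : Tendsto (fun j => (N j : ℝ)) atTop atTop := tendsto_natCast_atTop_atTop.comp hNt
  set κ : ℕ → ℝ := fun j => lam / N j with hκ
  have hκ0 : ∀ j, 0 ≤ κ j := fun j => (div_pos hlam0 (hNr j)).le
  have hκ1 : ∀ j, κ j ≤ 1 := fun j => by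
    simp only [hκ]
    rw [div_le_one (hNr j)]
    refine hn0.trans ?_
    simp only [hN]
    push_cast
    linarith [(Nat.cast_nonneg j : (0 : ℝ) ≤ j)]
  have hκt : Tendsto κ atTop (𝓝 0) := tendsto_const_nhds.div_atTop hNtR
  set L : ℕ → ℕ := fun j => ⌈ℓ * N j⌉₊ with hLdef
  have hL1 : ∀ j, 1 ≤ L j := fun j => by
    simp only [hLdef]
    rw [Nat.one_le_ceil_iff]
    exact mul_pos (by linarith) (hNr j)
  have hLlo : ∀ j, ℓ * N j ≤ L j := fun j => Nat.le_ceil _
  have hLup : ∀ j, (L j : ℝ) < ℓ * N j + 1 := fun j =>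
    Nat.ceil_lt_add_one (mul_nonneg (by linarith) (hNr j).le)
  have hLlim : Tendsto (fun j => (L j : ℝ) / N j) atTop (𝓝 ℓ) := by
    have h1 : Tendsto (fun j => ℓ + 1 / (N j : ℝ)) atTop (𝓝 (ℓ + 0)) :=
      tendsto_const_nhds.add (tendsto_const_nhds.div_atTop hNtR)
    rw [add_zero] at h1
    refine tendsto_of_tendsto_of_tendsto_of_le_of_le tendsto_const_nhds h1 (fun j => ?_)
      (fun j => ?_)
    · show ℓ ≤ (L j : ℝ) / N j
      rw [le_div_iff₀ (hNr j)]; exact hLlo j
    · show (L j : ℝ) / N j ≤ ℓ + 1 / (N j : ℝ)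
      rw [div_le_iff₀ (hNr j), add_mul, div_mul_cancel₀ _ (hNr j).ne']
      exact (hLup j).le
  have hfL0 : ∀ j, fL (κ j) (L j) 0 = 1 - κ j := fun j => by simp [fL]
  obtain ⟨p, hp, hpl⟩ := exists_std lam N hNt hN0 (fun j => fL (κ j) (L j))
    (fun j => rs (fL (κ j) (L j))) (fun j => rs_ren (κ j) (hκ0 j) (hκ1 j) (L j))
    (fun j => by rw [hfL0]; simp only [hκ]; linarith)
  have hLκ : Tendsto (fun j => (L j : ℝ) * κ j) atTop (𝓝 (lam * ℓ)) := by
    have h1 := hLlim.const_mul lam
    refine h1.congr fun j => ?_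
    simp only [hκ]
    ring
  obtain ⟨τ, hτ⟩ : ∃ τ : ℝ≥0, (τ : ℝ) = ℓ := ⟨⟨ℓ, by linarith⟩, rfl⟩
  refine ⟨p, hp, ?_, τ, ?_, ?_⟩
  · -- the value at `1`
    refine hpl N 1 _ ?_ ?_
    · rw [NNReal.coe_one]
      refine tendsto_const_nhds.congr fun j => ?_
      rw [div_self (hNr j).ne']
    -- eventually `L j + 1 ≤ N j`
    have hev : ∀ᶠ j in atTop, L j + 1 ≤ N j := by
      have h1 : ∀ᶠ j in atTop, 2 / (1 - ℓ) ≤ (N j : ℝ) := hNtR.eventually_ge_atTop _
      filter_upwards [h1] with j hj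
      rw [div_le_iff₀ (by linarith)] at hj
      have h2 := hLup j
      have h3 : ((L j + 1 : ℕ) : ℝ) ≤ N j := by push_cast; nlinarith
      exact_mod_cast h3
    have hform : ∀ᶠ j in atTop, (1 - κ j) ^ N j
        + ((N j - (L j + 1) : ℕ) * κ j + κ j) * (1 - κ j) ^ (N j - (L j + 1))
        = rs (fL (κ j) (L j)) (N j) := by
      filter_upwards [hev] with j hj
      have hmL : N j - (L j + 1) ≤ L j := by
        have h1 := hLlo j
        have h2 : (N j : ℝ) ≤ ((2 * L j : ℕ) : ℝ) := by push_cast; nlinarith [hNr j]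
        have h3 : N j ≤ 2 * L j := by exact_mod_cast h2
        omega
      have h1 := rs_high (κ j) (L j) (hL1 j) (N j - (L j + 1)) hmL
      rw [show L j + 1 + (N j - (L j + 1)) = N j by omega] at h1
      rw [h1]
      ring
    refine Tendsto.congr' hform ?_
    have e1 : Tendsto (fun j => (1 - κ j) ^ N j) atTop (𝓝 (Real.exp (-lam))) := by
      refine lim_pow κ N lam hκt ?_
      refine tendsto_const_nhds.congr fun j => ?_
      simp only [hκ]
      rw [mul_div_cancel₀ _ (hNr j).ne']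
    have e2 : Tendsto (fun j => ((N j - (L j + 1) : ℕ) : ℝ) * κ j) atTop (𝓝 x) := by
      have h1 : Tendsto (fun j => lam - (L j : ℝ) * κ j - κ j) atTop (𝓝 (lam - lam * ℓ - 0)) :=
        (hLκ.const_sub lam).sub hκt
      have h2 : lam - lam * ℓ - 0 = x := by
        rw [hℓ]; field_simp; ring
      rw [h2] at h1
      refine Tendsto.congr' ?_ h1
      filter_upwards [hev] with j hj
      rw [Nat.cast_sub hj]
      push_cast
      have h3 : (N j : ℝ) * κ j = lam := by
        simp only [hκ]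
        rw [mul_div_cancel₀ _ (hNr j).ne']
      linear_combination -h3
    have e3 := lim_pow κ (fun j => N j - (L j + 1)) x hκt e2
    have e4 := e1.add ((e2.add hκt).mul e3)
    have e5 : Real.exp (-lam) + (x + 0) * Real.exp (-x) = Real.exp (-x) := by
      rw [hlam, show -(x - Real.log (1 - x)) = -x + Real.log (1 - x) by ring, Real.exp_add,
        Real.exp_log h1x]
      ring
    rw [e5] at e4
    exact e4
  · rw [← NNReal.coe_le_coe, NNReal.coe_one, hτ]
    exact hℓ2.le
  · refine hpl L τ _ (by rw [hτ]; exact hLlim) ?_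
    have e1 := lim_pow κ L (lam * ℓ) hκt hLκ
    have e2 : Real.exp (-(lam * ℓ)) = 1 - x := by
      have h2 : lam * ℓ = lam - x := by
        rw [hℓ]; field_simp
      rw [h2, hlam, show -(x - Real.log (1 - x) - x) = Real.log (1 - x) by ring,
        Real.exp_log h1x]
    rw [e2] at e1
    refine e1.congr fun j => ?_
    rw [rs_low (κ j) (L j) (hL1 j) (L j) le_rfl]

/-- exponentials -/
lemma exp_isStd (a : ℝ) (ha : 0 ≤ a) : IsStd (fun t : ℝ≥0 => Real.exp (-(a * t))) := by
  have h : Pool.Agent.Y771.IZ.Cc (fun t => a * t) := by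
    refine ⟨by simp, ?_, ?_, ?_⟩
    · refine ⟨convex_Ici 0, fun x _ y _ α β _ _ _ => ?_⟩
      simp only [smul_eq_mul]
      apply le_of_eq
      ring
    · intro x _ y _ hxy
      exact mul_le_mul_of_nonneg_left hxy ha
    · fun_prop
  exact h.isStd

end Run7.h194.PF
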