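import Pool.Agent.Run7.h194.PF.Disc3
import Pool.Agent.Y771.IZ.Cont

set_option autoImplicit false

open Finset Filter Topology MeasureTheory
open scoped NNReal

namespace Run7.h194.PF

open Pool.Agent.Results.MP_0f714a_pr.NotInI0

/-- splitting of the product over the gaps at the last but one point -/
lemma V_split (p : ℝ≥0 → ℝ) : ∀ (n : ℕ) (l : List ℝ≥0) (a b : ℝ≥0), l.length = n →
    (∀ c ∈ l, c ≤ a) → V p (l ++ [a, b]) = V p (l ++ [a]) * p (b - a) := by
  intro n
  induction n with
  | zero =>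
    intro l a b hl _
    rw [List.length_eq_zero_iff] at hl
    subst hl
    simp [V_cons, V_nil]
  | succ n ih =>
    intro l a b hl hla
    cases l with
    | nil => simp at hl
    | cons c l =>
      rw [List.cons_append, List.cons_append, V_cons, V_cons, List.map_append, List.map_append]
      have hc : c ≤ a := hla c (by simp)
      have h1 := ih (l.map (· - c)) (a - c) (b - c) (by simpa using hl) (by
        intro x hx
        obtain ⟨y, hy, rfl⟩ := List.mem_map.mp hx
        exact tsub_le_tsub_right (hla y (by simp [hy])) _)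
      simp only [List.map_cons, List.map_nil]
      rw [h1, tsub_tsub_tsub_cancel_right hc]
      ring

section
variable {p : ℝ≥0 → ℝ} {Ω : Type} [MeasurableSpace Ω] {P : Measure Ω} [IsProbabilityMeasure P]
  {E : ℝ≥0 → Set Ω} (hE : ∀ t, MeasurableSet (E t))
  (reg : ∀ (n : ℕ) (t : Fin (n + 1) → ℝ≥0), Monotone t →
      P.real (⋂ i, E (t i)) = p (t 0) * P.real (⋂ i : Fin n, E (t i.succ - t 0)))

include reg

omit hE in
lemma prob_list : ∀ (n : ℕ) (l : List ℝ≥0), l.length = n → l.Pairwise (· ≤ ·) →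
    P.real {w : Ω | ∀ t ∈ l, w ∈ E t} = V p l := by
  intro n
  induction n with
  | zero =>
    intro l hl _
    rw [List.length_eq_zero_iff] at hl
    subst hl
    simp [V_nil]
  | succ n ih =>
    intro l hl hs
    cases l with
    | nil => simp at hl
    | cons a l =>
      rw [V_cons]
      have hlen : l.length = n := by simpa using hl
      rw [List.pairwise_cons] at hs
      have h1 := reg l.length (fun i => (a :: l).get i) (by
        intro i j hij
        rcases hij.eq_or_lt with rfl | hij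
        · exact le_rfl
        · exact List.pairwise_iff_get.mp (List.pairwise_cons.mpr hs) i j hij)
      have h2 := ih (l.map (· - a)) (by simpa using hlen) (by
        rw [List.pairwise_map]
        exact hs.2.imp fun h => tsub_le_tsub_right h _)
      have e1 : (⋂ i : Fin (l.length + 1), E ((a :: l).get i))
          = {w : Ω | ∀ t ∈ a :: l, w ∈ E t} := by
        ext w
        simp only [Set.mem_iInter, Set.mem_ofPred_eq]
        constructor
        · intro h t ht
          obtain ⟨i, rfl⟩ := List.get_of_mem ht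
          exact h i
        · intro h i
          exact h _ (List.get_mem _ _)
      have e2 : (⋂ i : Fin l.length, E ((a :: l).get i.succ - (a :: l).get 0))
          = {w : Ω | ∀ t ∈ l.map (· - a), w ∈ E t} := by
        ext w
        simp only [Set.mem_iInter, Set.mem_ofPred_eq]
        constructor
        · intro h t ht
          obtain ⟨s, hs, rfl⟩ := List.mem_map.mp ht
          obtain ⟨i, rfl⟩ := List.get_of_mem hs
          exact h i
        · intro h i
          exact h _ (List.mem_map.mpr ⟨l.get i, List.get_mem _ _, rfl⟩)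
      rw [← e1, h1, e2, h2]
      rfl

omit hE in
lemma prob_two (s t : ℝ≥0) (h : s ≤ t) : P.real (E s ∩ E t) = p s * p (t - s) := by
  have h1 := prob_list reg 2 [s, t] rfl (by simp [h])
  rw [V_cons, List.map_cons, List.map_nil, V_cons, List.map_nil, V_nil, mul_one] at h1
  rw [← h1]
  congr 1
  ext w
  simp

omit hE in
lemma prob_one (t : ℝ≥0) : P.real (E t) = p t := by
  have h1 := prob_list reg 1 [t] rfl (by simp)
  rw [V_cons, List.map_nil, V_nil, mul_one] at h1
  rw [← h1]
  congr 1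
  ext w
  simp

/-- splitting for positive patterns on a skeleton -/
lemma prob_pos (h : ℝ≥0) (S : Finset ℕ) (j n : ℕ) (hS : ∀ i ∈ S, i ≤ j) (hjn : j ≤ n) :
    P.real ({w : Ω | ∀ i ∈ S, w ∈ E (i * h)} ∩ E (j * h) ∩ E (n * h))
      = P.real ({w : Ω | ∀ i ∈ S, w ∈ E (i * h)} ∩ E (j * h)) * p ((n - j : ℕ) * h) := by
  set l : List ℝ≥0 := (S.sort (· ≤ ·)).map (fun i : ℕ => (i : ℝ≥0) * h) with hl
  have hmem : ∀ w : Ω, (∀ t ∈ l, w ∈ E t) ↔ ∀ i ∈ S, w ∈ E (i * h) := by
    intro w
    rw [hl]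
    simp only [List.mem_map, mem_sort, forall_exists_index, and_imp, forall_apply_eq_imp_iff₂]
  have hsort : l.Pairwise (· ≤ ·) := by
    rw [hl, List.pairwise_map]
    refine (S.pairwise_sort (· ≤ ·)).imp fun {a b} hab => ?_
    exact mul_le_mul_of_nonneg_right (by exact_mod_cast hab) h.2
  have hle : ∀ c ∈ l, c ≤ (j : ℝ≥0) * h := by
    intro c hc
    rw [hl, List.mem_map] at hc
    obtain ⟨i, hi, rfl⟩ := hc
    rw [mem_sort] at hi
    exact mul_le_mul_of_nonneg_right (by exact_mod_cast hS i hi) h.2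
  have hjn' : (j : ℝ≥0) * h ≤ n * h :=
    mul_le_mul_of_nonneg_right (by exact_mod_cast hjn) h.2
  have h1 := prob_list reg _ (l ++ [(j : ℝ≥0) * h, (n : ℝ≥0) * h]) rfl (by
    rw [List.pairwise_append]
    refine ⟨hsort, by simp [hjn'], fun a ha b hb => ?_⟩
    simp only [List.mem_cons, List.not_mem_nil, or_false] at hb
    rcases hb with rfl | rfl
    · exact hle a ha
    · exact (hle a ha).trans hjn')
  have h2 := prob_list reg _ (l ++ [(j : ℝ≥0) * h]) rfl (by
    rw [List.pairwise_append]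
    refine ⟨hsort, by simp, fun a ha b hb => ?_⟩
    simp only [List.mem_cons, List.not_mem_nil, or_false] at hb
    rcases hb with rfl
    exact hle a ha)
  have h3 := V_split p _ l ((j : ℝ≥0) * h) ((n : ℝ≥0) * h) rfl hle
  have e1 : {w : Ω | ∀ t ∈ l ++ [(j : ℝ≥0) * h, (n : ℝ≥0) * h], w ∈ E t}
      = {w : Ω | ∀ i ∈ S, w ∈ E (i * h)} ∩ E (j * h) ∩ E (n * h) := by
    ext w
    simp only [List.mem_append, List.mem_cons, List.not_mem_nil, or_false, Set.mem_ofPred_eq,
      Set.mem_inter_iff]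
    rw [← hmem w]
    constructor
    · intro H
      exact ⟨⟨fun t ht => H t (Or.inl ht), H _ (Or.inr (Or.inl rfl))⟩, H _ (Or.inr (Or.inr rfl))⟩
    · rintro ⟨⟨H1, H2⟩, H3⟩ t (ht | rfl | rfl)
      · exact H1 t ht
      · exact H2
      · exact H3
  have e2 : {w : Ω | ∀ t ∈ l ++ [(j : ℝ≥0) * h], w ∈ E t}
      = {w : Ω | ∀ i ∈ S, w ∈ E (i * h)} ∩ E (j * h) := by
    ext w
    simp only [List.mem_append, List.mem_cons, List.not_mem_nil, or_false, Set.mem_ofPred_eq,
      Set.mem_inter_iff]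
    rw [← hmem w]
    constructor
    · intro H
      exact ⟨fun t ht => H t (Or.inl ht), H _ (Or.inr rfl)⟩
    · rintro ⟨H1, H2⟩ t (ht | rfl)
      · exact H1 t ht
      · exact H2
  rw [e1] at h1
  rw [e2] at h2
  rw [h1, h2, h3]
  congr 2
  rw [Nat.cast_tsub, tsub_mul]

include hE

/-- splitting for mixed patterns on a skeleton -/
lemma prob_mix (h : ℝ≥0) (j n : ℕ) (hjn : j ≤ n) (T : Finset ℕ) :
    (∀ i ∈ T, i ≤ j) → ∀ S : Finset ℕ, (∀ i ∈ S, i ≤ j) →
    P.real ({w : Ω | ∀ i ∈ S, w ∈ E (i * h)} ∩ {w : Ω | ∀ i ∈ T, w ∉ E (i * h)}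
        ∩ E (j * h) ∩ E (n * h))
      = P.real ({w : Ω | ∀ i ∈ S, w ∈ E (i * h)} ∩ {w : Ω | ∀ i ∈ T, w ∉ E (i * h)}
        ∩ E (j * h)) * p ((n - j : ℕ) * h) := by
  have hmA : ∀ S : Finset ℕ, MeasurableSet {w : Ω | ∀ i ∈ S, w ∈ E (i * h)} := by
    intro S
    have : {w : Ω | ∀ i ∈ S, w ∈ E (i * h)} = ⋂ i ∈ S, E (i * h) := by ext w; simp
    rw [this]
    exact Finset.measurableSet_biInter S fun i _ => hE _
  have hmB : ∀ S : Finset ℕ, MeasurableSet {w : Ω | ∀ i ∈ S, w ∉ E (i * h)} := by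
    intro S
    have : {w : Ω | ∀ i ∈ S, w ∉ E (i * h)} = ⋂ i ∈ S, (E (i * h))ᶜ := by ext w; simp
    rw [this]
    exact Finset.measurableSet_biInter S fun i _ => (hE _).compl
  induction T using Finset.induction_on with
  | empty =>
    intro _ S hS
    have e : {w : Ω | ∀ i ∈ (∅ : Finset ℕ), w ∉ E (i * h)} = Set.univ := by ext w; simp
    rw [e, Set.inter_univ]
    exact prob_pos reg h S j n hS hjn
  | insert i T hi ih =>
    intro hT S hS
    have hT' : ∀ i ∈ T, i ≤ j := fun a ha => hT a (mem_insert_of_mem ha)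
    have h1 := ih hT' S hS
    have h2 := ih hT' (insert i S) (by
      intro a ha
      rcases mem_insert.mp ha with rfl | ha
      · exact hT a (mem_insert_self _ _)
      · exact hS a ha)
    have key : ∀ C : Set Ω, MeasurableSet C →
        P.real ({w : Ω | ∀ a ∈ S, w ∈ E (a * h)} ∩ {w : Ω | ∀ a ∈ insert i T, w ∉ E (a * h)} ∩ C)
        = P.real ({w : Ω | ∀ a ∈ S, w ∈ E (a * h)} ∩ {w : Ω | ∀ a ∈ T, w ∉ E (a * h)} ∩ C)
          - P.real ({w : Ω | ∀ a ∈ insert i S, w ∈ E (a * h)}
            ∩ {w : Ω | ∀ a ∈ T, w ∉ E (a * h)} ∩ C) := by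
      intro C hC
      rw [← measureReal_sdiff]
      · congr 1
        ext w
        simp only [Set.mem_inter_iff, Set.mem_ofPred_eq, Set.mem_sdiff, mem_insert,
          forall_eq_or_imp]
        tauto
      · intro w
        simp only [Set.mem_inter_iff, Set.mem_ofPred_eq, mem_insert, forall_eq_or_imp]
        tauto
      · exact ((hmA _).inter (hmB _)).inter hC
    have k1 := key (E (j * h)) (hE _)
    have k2 := key (E (j * h) ∩ E (n * h)) ((hE _).inter (hE _))
    rw [← Set.inter_assoc, ← Set.inter_assoc, ← Set.inter_assoc] at k2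
    rw [k1, k2, h1, h2]
    ring

/-- The skeletons of a p-function are renewal sequences. -/
lemma ren_aux (h : ℝ≥0) (hp0 : p 0 = 1) : ∃ f, Ren f (fun n : ℕ => p (n * h)) := by
  set B : ℕ → Set Ω := fun k => {w : Ω | ∀ i ∈ Ico 1 (k + 1), w ∉ E (i * h)} with hB
  have hmB : ∀ k, MeasurableSet (B k) := by
    intro k
    have : B k = ⋂ i ∈ Ico 1 (k + 1), (E (i * h))ᶜ := by ext w; simp [hB]
    rw [this]
    exact Finset.measurableSet_biInter _ fun i _ => (hE _).compl
  have hB0 : B 0 = Set.univ := by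
    ext w
    simp only [hB, Set.mem_ofPred_eq, Set.mem_univ, iff_true, mem_Ico]
    intro i hi
    omega
  have hBs : ∀ k, B (k + 1) = B k \ E ((k + 1 : ℕ) * h) := by
    intro k
    ext w
    simp only [hB, Set.mem_ofPred_eq, Set.mem_sdiff, mem_Ico]
    constructor
    · intro H
      exact ⟨fun i hi => H i ⟨hi.1, by omega⟩, H (k + 1) ⟨by omega, by omega⟩⟩
    · rintro ⟨H1, H2⟩ i hi
      rcases Nat.lt_or_ge i (k + 1) with h3 | h3
      · exact H1 i ⟨hi.1, h3⟩
      · rw [show i = k + 1 by omega]; exact H2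
  have hsplit : ∀ (k : ℕ) (C : Set Ω), MeasurableSet C →
      P.real (B k ∩ C) = P.real (B (k + 1) ∩ C) + P.real (B k ∩ E ((k + 1 : ℕ) * h) ∩ C) := by
    intro k C hC
    rw [hBs, ← measureReal_union]
    · congr 1
      ext w
      simp only [Set.mem_inter_iff, Set.mem_union, Set.mem_sdiff]
      tauto
    · rw [Set.disjoint_left]
      intro w
      simp only [Set.mem_inter_iff, Set.mem_sdiff]
      tauto
    · exact ((hmB k).inter (hE _)).inter hC
  refine ⟨fun k => P.real (B k ∩ E ((k + 1 : ℕ) * h)), ⟨by simpa using hp0,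
    fun k => measureReal_nonneg, fun n => ?_, fun n => ?_⟩⟩
  · have h1 : ∀ n, ∑ k ∈ range n, P.real (B k ∩ E ((k + 1 : ℕ) * h)) + P.real (B n) = 1 := by
      intro n
      induction n with
      | zero => rw [hB0]; simp
      | succ n ih =>
        rw [sum_range_succ]
        have h2 := hsplit n Set.univ MeasurableSet.univ
        simp only [Set.inter_univ] at h2
        linarith
    have h2 := h1 n
    have h3 : 0 ≤ P.real (B n) := measureReal_nonneg
    linarith
  · have h1 : ∀ m ≤ n + 1, P.real (E ((n + 1 : ℕ) * h))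
        = ∑ k ∈ range m, P.real (B k ∩ E ((k + 1 : ℕ) * h) ∩ E ((n + 1 : ℕ) * h))
          + P.real (B m ∩ E ((n + 1 : ℕ) * h)) := by
      intro m hm
      induction m with
      | zero => rw [hB0]; simp
      | succ m ih =>
        rw [sum_range_succ, ih (by omega)]
        have h2 := hsplit m (E ((n + 1 : ℕ) * h)) (hE _)
        linarith
    have h2 := h1 (n + 1) le_rfl
    have h3 : B (n + 1) ∩ E ((n + 1 : ℕ) * h) = ∅ := by
      ext w
      simp only [hBs, Set.mem_inter_iff, Set.mem_sdiff, Set.mem_empty_iff_false]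
      tauto
    rw [h3, measureReal_empty, add_zero, prob_one reg] at h2
    show p ((n + 1 : ℕ) * h) = _
    rw [h2]
    refine sum_congr rfl fun k hk => ?_
    rw [mem_range] at hk
    have h4 := prob_mix hE reg h (k + 1) (n + 1) (by omega) (Ico 1 (k + 1))
      (fun i hi => by rw [mem_Ico] at hi; omega) ∅ (by simp)
    have e : {w : Ω | ∀ i ∈ (∅ : Finset ℕ), w ∈ E (i * h)} = Set.univ := by ext w; simp
    rw [e, Set.univ_inter, Nat.add_sub_add_right] at h4
    exact h4

end

/-- The skeletons of a p-function are renewal sequences. -/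
theorem IsPFunction.ren {p : ℝ≥0 → ℝ} (hp : IsPFunction p) (h : ℝ≥0) :
    ∃ f, Ren f (fun n : ℕ => p (n * h)) := by
  obtain ⟨h0, -, Ω, mΩ, P, E, hP, hE, reg⟩ := hp
  exact ren_aux hE reg h h0

lemma IsPFunction.lower {p : ℝ≥0 → ℝ} (hp : IsPFunction p) (t h : ℝ≥0) :
    p t * p h ≤ p (t + h) := by
  obtain ⟨h0, -, Ω, mΩ, P, E, hP, hE, reg⟩ := hp
  have h1 := prob_two reg t (t + h) (by simp)
  rw [add_tsub_cancel_left] at h1
  rw [← h1, ← prob_one reg (t + h)]
  exact measureReal_mono Set.inter_subset_right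

lemma IsPFunction.upper {p : ℝ≥0 → ℝ} (hp : IsPFunction p) (t h : ℝ≥0) :
    p (t + h) ≤ p h * p t + (1 - p h) := by
  obtain ⟨h0, -, Ω, mΩ, P, E, hP, hE, reg⟩ := hp
  have h1 := prob_two reg h (t + h) (by simp)
  rw [add_tsub_cancel_right] at h1
  rw [← h1, ← prob_one reg (t + h), ← prob_one reg h, ← probReal_compl_eq_one_sub (hE h)]
  refine (measureReal_mono (s₂ := (E h ∩ E (t + h)) ∪ (E h)ᶜ) ?_).trans (measureReal_union_le _ _)
  intro w hw
  simp only [Set.mem_union, Set.mem_inter_iff, Set.mem_compl_iff]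
  tauto

lemma IsPFunction.dist_le {p : ℝ≥0 → ℝ} (hp : IsPFunction p) (t h : ℝ≥0) :
    |p (t + h) - p t| ≤ 1 - p h := by
  have h1 := hp.2.1 t
  have h2 := hp.2.1 h
  have h3 := IsPFunction.lower hp t h
  have h4 := IsPFunction.upper hp t h
  rw [abs_le]
  constructor <;> nlinarith

/-- Standard p-functions are continuous. -/
lemma IsStd.continuous {p : ℝ≥0 → ℝ} (hp : IsStd p) : Continuous p := by
  rw [Metric.continuous_iff]
  intro b ε hε
  have h1 := Metric.tendsto_nhds_nhds.mp hp.2 ε hε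
  obtain ⟨δ, hδ, h2⟩ := h1
  refine ⟨δ, hδ, fun a ha => ?_⟩
  rw [Real.dist_eq]
  rcases le_total a b with hab | hab
  · obtain ⟨h, rfl⟩ := exists_add_of_le hab
    have h3 := h2 (x := h) (by
      rw [NNReal.dist_eq] at ha ⊢
      push_cast at ha ⊢
      rw [show (a : ℝ) - (a + h) = -(h - 0) by ring, abs_neg] at ha
      exact ha)
    rw [Real.dist_eq, abs_lt] at h3
    rw [abs_sub_comm]
    exact (IsPFunction.dist_le hp.1 a h).trans_lt (by linarith)
  · obtain ⟨h, rfl⟩ := exists_add_of_le hab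
    have h3 := h2 (x := h) (by
      rw [NNReal.dist_eq] at ha ⊢
      push_cast at ha ⊢
      rw [show (b : ℝ) + h - b = h - 0 by ring] at ha
      exact ha)
    rw [Real.dist_eq, abs_lt] at h3
    exact (IsPFunction.dist_le hp.1 b h).trans_lt (by linarith)

/-- The sharp oscillation inequality: `p t ≤ exp (p s - 1)` for `s ≤ t`. -/
theorem IsStd.osc {p : ℝ≥0 → ℝ} (hp : IsStd p) {s t : ℝ≥0} (hst : s ≤ t) :
    p t ≤ Real.exp (p s - 1) := by
  rcases eq_or_ne t 0 with rfl | ht
  · have : s = 0 := le_antisymm hst bot_le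
    subst this
    rw [hp.1.1]; simp
  have ht0 : 0 < t := pos_iff_ne_zero.mpr ht
  have hcont := IsStd.continuous hp
  -- the discrete inequality at mesh `t / N`
  have key : ∀ N : ℕ, 1 ≤ N → p t ≤ Real.exp (p ((⌊s / t * (N : ℝ≥0)⌋₊ : ℝ≥0) / N * t) - 1)
      + 2 * (1 - p (t / N)) := by
    intro N hN
    have hN0 : (N : ℝ≥0) ≠ 0 := by
      have : (N : ℝ≥0) ≠ ((0 : ℕ) : ℝ≥0) := by exact_mod_cast (by omega)
      simpa using this
    obtain ⟨f, hf⟩ := IsPFunction.ren hp.1 (t / N)
    set k := ⌊s / t * (N : ℝ≥0)⌋₊ with hk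
    have hkN : k ≤ N := by
      rw [hk]
      refine Nat.floor_le_of_le ?_
      calc s / t * (N : ℝ≥0) ≤ 1 * N := by
            gcongr
            exact div_le_one_of_le₀ hst bot_le
        _ = N := one_mul _
    have h1 := hf.main k (N - k)
    rw [show k + (N - k) = N by omega] at h1
    have h2 : f 0 = p (t / N) := by
      have h3 := hf.req 0
      simp only [zero_add, sum_range_one, Nat.sub_zero, Nat.cast_zero, zero_mul, Nat.cast_one,
        one_mul, hp.1.1, mul_one] at h3
      exact h3.symm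
    rw [h2] at h1
    rw [show ((N : ℝ≥0) * (t / N)) = t by rw [mul_comm]; exact div_mul_cancel₀ t hN0] at h1
    rw [show ((k : ℝ≥0) * (t / N)) = k / N * t by rw [mul_div_assoc', div_mul_eq_mul_div]] at h1
    exact h1
  have l1 : Tendsto (fun N : ℕ => (⌊s / t * (N : ℝ≥0)⌋₊ : ℝ≥0) / N * t) atTop (𝓝 s) := by
    have h1 := tendsto_floor (fun N => N) tendsto_id (s / t)
    have h2 := h1.mul_const t
    rwa [show s / t * t = s from div_mul_cancel₀ s ht] at h2
  have l2 : Tendsto (fun N : ℕ => t / (N : ℝ≥0)) atTop (𝓝 0) := by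
    rw [← NNReal.tendsto_coe]
    push_cast
    exact tendsto_const_div_atTop_nhds_zero_nat (t : ℝ)
  have l3 : Tendsto (fun N : ℕ => Real.exp (p ((⌊s / t * (N : ℝ≥0)⌋₊ : ℝ≥0) / N * t) - 1)
      + 2 * (1 - p (t / N))) atTop (𝓝 (Real.exp (p s - 1) + 2 * (1 - 1))) := by
    refine Tendsto.add ?_ ?_
    · exact (Real.continuous_exp.tendsto _).comp
        ((((hcont.tendsto s).comp l1)).sub_const 1)
    · exact (tendsto_const_nhds.sub (hp.2.comp l2)).const_mul 2
  have h5 := ge_of_tendsto l3 (eventually_atTop.mpr ⟨1, fun N hN => key N hN⟩)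
  linarith

end Run7.h194.PF
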